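import Pool.Agent.W717.UR.Stm

set_option autoImplicit false

/-! Project UR: minimality of the two-sided sequence. -/

namespace Pool.Agent.W991.UR

open Pool.Agent.W717.UR

variable {G N : ℕ → ℕ} {e : ℕ → ℕ → ℤ}

lemma bb_first (P : Par G N e) (k : ℕ) (i : ℤ) (h0 : 0 ≤ i) (h1 : i < hh G N k) :
    bb G N e (k + 1) i = bb G N e k i := by
  have hG := P.hG k
  have hlt : i < (G k * (hh G N k + 1) : ℕ) := by
    have : (hh G N k : ℕ) < G k * (hh G N k + 1) := by nlinarith
    have h2 : ((hh G N k : ℕ) : ℤ) < ((G k * (hh G N k + 1) : ℕ) : ℤ) := by exact_mod_cast this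
    omega
  have hmod : i % ((hh G N k + 1 : ℕ) : ℤ) = i := Int.emod_eq_of_lt h0 (by push_cast; omega)
  rw [bb, if_pos ⟨h0, hlt⟩, hmod]

lemma bb_second (k q : ℕ) (hq : q < N k) (i : ℤ) (h0 : 0 ≤ i) (h1 : i < hh G N k) :
    bb G N e (k + 1) (((G k * (hh G N k + 1) : ℕ) : ℤ) + q * hh G N k + i) =
      e k q * bb G N e k i := by
  have hpos : (0 : ℤ) < hh G N k := lt_of_le_of_lt h0 h1
  have hqh : 0 ≤ (q : ℤ) * hh G N k := by positivity
  have hqN : (q : ℤ) * hh G N k + hh G N k ≤ (N k : ℤ) * hh G N k := by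
    have : ((q : ℤ) + 1) ≤ N k := by exact_mod_cast hq
    nlinarith
  have hL : ¬ (0 ≤ ((G k * (hh G N k + 1) : ℕ) : ℤ) + q * hh G N k + i ∧
      ((G k * (hh G N k + 1) : ℕ) : ℤ) + q * hh G N k + i < (G k * (hh G N k + 1) : ℕ)) := by
    intro h
    have := h.2
    omega
  have hR : ((G k * (hh G N k + 1) : ℕ) : ℤ) ≤ ((G k * (hh G N k + 1) : ℕ) : ℤ) +
      q * hh G N k + i ∧ ((G k * (hh G N k + 1) : ℕ) : ℤ) + q * hh G N k + i <
      (hh G N (k + 1) : ℕ) := by
    refine ⟨by omega, ?_⟩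
    have : ((hh G N (k + 1) : ℕ) : ℤ) = ((G k * (hh G N k + 1) : ℕ) : ℤ) + N k * hh G N k := by
      rw [hh]; push_cast; ring
    rw [this]
    omega
  rw [bb, if_neg hL, if_pos hR]
  have e1 : ((G k * (hh G N k + 1) : ℕ) : ℤ) + q * hh G N k + i - (G k * (hh G N k + 1) : ℕ) =
      i + q * hh G N k := by ring
  rw [e1, Int.add_mul_ediv_right _ _ hpos.ne', Int.ediv_eq_zero_of_lt h0 h1, zero_add,
    Int.toNat_natCast, Int.add_mul_emod_self_right, Int.emod_eq_of_lt h0 h1]

/-- a level at which all words of radius `R` are seen -/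
lemma exists_level (hBasic : S_BASIC) (P : Par G N e) (R : ℕ) :
    ∃ K : ℕ, ∀ n : ℤ, ∃ m : ℤ, m.natAbs + R ≤ K ∧
      ∀ i : ℤ, |i| ≤ R → YY G N e (m + i) = YY G N e (n + i) := by
  classical
  obtain ⟨-, hval, -⟩ := hBasic G N e P
  have hY : ∀ n, YY G N e n ∈ ({-1, 0, 1} : Finset ℤ) := by
    intro n
    have := hval (n.natAbs + 1) (n + aa G N (n.natAbs + 1))
    unfold YY
    simpa using this
  let W : ℤ → (Fin (2 * R + 1) → ({-1, 0, 1} : Finset ℤ)) := fun n j =>
    ⟨YY G N e (n - R + (j : ℕ)), hY _⟩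
  have hch : ∀ w : Set.range W, ∃ m : ℤ, W m = w := fun w => w.2
  choose f hf using hch
  obtain ⟨B, hB⟩ := (Set.finite_range (fun w : Set.range W => (f w).natAbs)).bddAbove
  refine ⟨B + R, fun n => ?_⟩
  refine ⟨f ⟨W n, n, rfl⟩, ?_, ?_⟩
  · have := hB ⟨⟨W n, n, rfl⟩, rfl⟩
    simp only at this
    omega
  · intro i hi
    rw [abs_le] at hi
    have h1 := hf ⟨W n, n, rfl⟩
    have h2 := congrFun h1 ⟨(i + R).toNat, by omega⟩
    have h3 := congrArg Subtype.val h2
    simp only [W] at h3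
    have h4 : (((i + R).toNat : ℕ) : ℤ) = i + R := Int.toNat_of_nonneg (by omega)
    rw [h4] at h3
    have e1 : ∀ a : ℤ, a - R + (i + R) = a + i := fun a => by ring
    rw [e1, e1] at h3
    exact h3

theorem t_min (hBasic : S_BASIC) (hYB : S_YB) (hBPY : S_BPY) : S_MIN := by
  intro G N e P R
  obtain ⟨K, hK⟩ := exists_level hBasic P R
  obtain ⟨hb1, hb2, hb3⟩ := hBasic G N e P
  refine ⟨3 * hh G N (K + 1), fun n n' => ?_⟩
  obtain ⟨m, hm1, hm2⟩ := hK n
  obtain ⟨ha1, ha2, ha3⟩ := hb1 K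
  -- the offset
  set o : ℤ := m + aa G N K with ho
  have ho1 : (R : ℤ) ≤ o := by omega
  have ho2 : o + R < hh G N K := by omega
  have hword : ∀ i : ℤ, |i| ≤ R → bb G N e K (o + i) = YY G N e (n + i) := by
    intro i hi
    have hi' := abs_le.1 hi
    have := hYB G N e P K (o + i) (by omega) (by omega)
    rw [← this, ← hm2 i hi]
    congr 1
    rw [ho]; ring
  obtain ⟨u, v, s1, s2, hu, hv, huv, -, hs2, -, hblk⟩ := hBPY G N e P (K + 1) n'
  have hv2 : v ≤ n' + hh G N (K + 1) + 1 := by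
    rcases huv with h | ⟨h, -⟩ <;> omega
  have hhK : (hh G N K : ℤ) < hh G N (K + 1) := by exact_mod_cast ha3
  rcases hs2 with hs2 | hs2
  · refine ⟨(v + o - n').toNat, by omega, ?_⟩
    intro i hi
    have hi' := abs_le.1 hi
    have e1 : n' + ((v + o - n').toNat : ℤ) + i = v + (o + i) := by
      rw [Int.toNat_of_nonneg (by omega)]; ring
    rw [e1, hblk (o + i) (by omega) (by omega), hs2, one_mul, bb_first P K _ (by omega)
      (by omega)]
    exact hword i hi
  · obtain ⟨q, hq, hqe⟩ := P.hneg K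
    have hqN : (q : ℤ) * hh G N K + hh G N K ≤ (N K : ℤ) * hh G N K := by
      have : ((q : ℤ) + 1) ≤ N K := by exact_mod_cast hq
      nlinarith
    have hqh : 0 ≤ (q : ℤ) * hh G N K := by positivity
    have hlen : ((hh G N (K + 1) : ℕ) : ℤ) = ((G K * (hh G N K + 1) : ℕ) : ℤ) +
        N K * hh G N K := by
      rw [hh]; push_cast; ring
    set L : ℤ := ((G K * (hh G N K + 1) : ℕ) : ℤ) with hL
    have hL0 : 0 ≤ L := by positivity
    refine ⟨(v + (L + q * hh G N K + o) - n').toNat, by omega, ?_⟩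
    intro i hi
    have hi' := abs_le.1 hi
    have e1 : n' + ((v + (L + q * hh G N K + o) - n').toNat : ℤ) + i =
        v + (L + q * hh G N K + (o + i)) := by
      rw [Int.toNat_of_nonneg (by omega)]; ring
    rw [e1, hblk _ (by omega) (by omega), bb_second K q hq (o + i) (by omega) (by omega),
      hs2, hqe, hword i hi]
    ring

end Pool.Agent.W991.UR
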